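import Pool.Agent.Lib.MP_ce9680_co.Basis

/-!
# Products of Lascoux polynomials with `x_1 ⋯ x_i (1 - x_{i+1}) ⋯ (1 - x_n)`

We work with `n = m + 1` variables, indexed by `Fin (m + 1)`; the adjacent positions of the
problem, `j` and `j + 1` with `1 ≤ j ≤ n - 1`, are `j.castSucc` and `j.succ` for `j : Fin m`.

From `Pool.Agent.Lib.MP_ce9680_co.Ops`:
* `Poly m` is `MvPolynomial (Fin (m + 1)) ℤ`;
* `s j` is the transposition of the positions `j.castSucc`, `j.succ`, and `sw j f` is `f` with the
  two corresponding variables swapped;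
* `ddiff j f` is the divided difference `(f - s_j f) / (x_j - x_{j+1})`;
* `piBar j f = ddiff j ((1 - x_{j+1}) x_j f)`.
-/

namespace Pool.Agent.Results.MP_ce9680_co.GradedNonneg

open MvPolynomial Pool.Agent.MPce9680

variable {m : ℕ}

/-- The recursion defining the Lascoux polynomials: `L α` is the monomial `x^α` when `α` is weakly
decreasing, and `L α = π̄_j (L (α · s_j))` whenever `α_j < α_{j+1}`. -/
def IsLascouxFamily (L : (Fin (m + 1) → ℕ) → Poly m) : Prop :=
  (∀ α : Fin (m + 1) → ℕ, Antitone α → L α = ∏ k, X k ^ α k) ∧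
  (∀ (α : Fin (m + 1) → ℕ) (j : Fin m), α j.castSucc < α j.succ →
    L α = piBar j (L (α ∘ s j)))

/-- The product `x_1 ⋯ x_i (1 - x_{i+1}) ⋯ (1 - x_n)`, `n = m + 1`. -/
noncomputable def factor (m i : ℕ) : Poly m :=
  ∏ k : Fin (m + 1), if (k : ℕ) < i then X k else 1 - X k

/-- The lowest nonzero homogeneous component of `f` has degree `d`. -/
def HasLowestDegree (d : ℕ) (f : Poly m) : Prop :=
  (∀ k < d, homogeneousComponent k f = 0) ∧ homogeneousComponent d f ≠ 0

/-- `f` has lowest degree `d`, and its coefficients `c_γ` in the basis `B` satisfy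
`(-1)^(|γ| - d) c_γ ≥ 0` (the sign is written `(-1)^(|γ| + d)`). -/
def IsGradedNonneg (B : Module.Basis (Fin (m + 1) → ℕ) ℤ (Poly m)) (d : ℕ) (f : Poly m) : Prop :=
  HasLowestDegree d f ∧ ∀ γ : Fin (m + 1) → ℕ, 0 ≤ (-1 : ℤ) ^ (∑ k, γ k + d) * B.repr f γ

lemma lascoux_isLascouxFamily : IsLascouxFamily (lascoux (m := m)) :=
  ⟨fun α h => lascoux_antitone α h, fun α j h => lascoux_ascent α j h⟩

lemma eq_lascoux {L : (Fin (m + 1) → ℕ) → Poly m} (hL : IsLascouxFamily L)
    (α : Fin (m + 1) → ℕ) : L α = lascoux α := by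
  induction hN : inv α using Nat.strong_induction_on generalizing α with
  | _ N IH =>
    subst hN
    by_cases hex : ∃ j : Fin m, α j.castSucc < α j.succ
    · obtain ⟨j, hj⟩ := hex
      rw [hL.2 α j hj, IH _ (inv_lt j α hj) _ rfl, lascoux_ascent α j hj]
    · have h := antitone_of_no_ascent α hex
      rw [hL.1 α h, lascoux_antitone α h]; rfl

/-- Full affirmative answer: the Lascoux polynomials are well defined and form a `ℤ`-basis, and
every product `x_1 ⋯ x_i (1 - x_{i+1}) ⋯ (1 - x_n) L_α` is a graded nonnegative combination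
of Lascoux polynomials. -/
theorem result (m : ℕ) :
    ∃ B : Module.Basis (Fin (m + 1) → ℕ) ℤ (Poly m),
      (∀ L : (Fin (m + 1) → ℕ) → Poly m, IsLascouxFamily L ↔ L = fun α => B α) ∧
      ∀ (α : Fin (m + 1) → ℕ) (i : ℕ), 1 ≤ i → i ≤ m + 1 →
        IsGradedNonneg B (∑ k, α k + i) (factor m i * B α) := by
  refine ⟨lascouxBasis m, ?_, ?_⟩
  · intro L
    constructor
    · intro hL
      funext α
      rw [lascouxBasis_apply, eq_lascoux hL]
    · rintro rfl
      simp only [lascouxBasis_apply]
      exact lascoux_isLascouxFamily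
  · intro α i _ hi
    set a : Fin (m + 1) → ℕ := fun k => if (k : ℕ) < i then 1 else 0 with ha
    have ha1 : ∀ k, a k ≤ 1 := by
      intro k; simp only [ha]; split_ifs <;> omega
    have hanti : Antitone a := by
      intro x y hxy
      rw [Fin.le_def] at hxy
      simp only [ha]
      split_ifs <;> omega
    have hsum : ∑ k, a k = i := by
      simp only [ha]
      rw [Finset.sum_boole, Fin.card_filter_val_lt]
      simp; omega
    have hfac : factor m i = gfac a := by
      unfold factor gfac
      refine Finset.prod_congr rfl fun k _ => ?_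
      simp only [ha]
      by_cases h : (k : ℕ) < i <;> simp [h]
    have h1 := gfac_mul_lascoux_mem α a ha1 hanti
    have h2 := lowest_degree α a ha1
    rw [hsum] at h1 h2
    rw [lascouxBasis_apply, hfac]
    exact ⟨h2, fun γ => repr_of_mem_P h1 γ⟩

end Pool.Agent.Results.MP_ce9680_co.GradedNonneg
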